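import Pool.Agent.PSS.StmtsS5

/-!
# Squad PSS, block S5, row LSU: sums modulo the Brauer kernel
-/

set_option autoImplicit false

open scoped BigOperators

noncomputable section

namespace Pool.Agent.PSS.S5.H1

open Pool.Agent.PSS

section

variable {F V A : Type} [Field F] [CommGroup V] [Ring A] [Algebra F A]

theorem lsu_mem {α : V →* A} {a : A} :
    a ∈ FxR (cw F α) ⊤ ↔ ∀ u, α u * a = a * α u := by
  constructor
  · intro h u
    have h1 : α u * (a * α u⁻¹) = a := h u (Subgroup.mem_top u)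
    calc α u * a = α u * (a * (α u⁻¹ * α u)) := by
          rw [← map_mul, inv_mul_cancel, map_one, mul_one]
      _ = α u * (a * α u⁻¹) * α u := by simp only [mul_assoc]
      _ = a * α u := by rw [h1]
  · intro h u _
    show α u * (a * α u⁻¹) = a
    rw [← mul_assoc, h u, mul_assoc, ← map_mul, mul_inv_cancel, map_one, mul_one]

theorem lsu_mul {α : V →* A} {a b : A} (ha : a ∈ FxR (cw F α) ⊤) (hb : b ∈ FxR (cw F α) ⊤) :
    a * b ∈ FxR (cw F α) ⊤ := by
  rw [lsu_mem] at *
  intro u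
  rw [← mul_assoc, ha u, mul_assoc, hb u, mul_assoc]

/-- the elements of the corner of the centraliser -/
def Dm (α : V →* A) (j d : A) : Prop := ∃ x ∈ FxR (cw F α) ⊤, d = j * x * j

end

variable {F V A : Type} [Field F] [CommGroup V] [Ring A] [Algebra F A] {α : V →* A} {j : A}

theorem Dm.add {x y : A} (hx : Dm (F := F) α j x) (hy : Dm (F := F) α j y) :
    Dm (F := F) α j (x + y) := by
  obtain ⟨a, ha, rfl⟩ := hx
  obtain ⟨b, hb, rfl⟩ := hy
  exact ⟨a + b, Submodule.add_mem _ ha hb, by rw [mul_add, add_mul]⟩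

theorem Dm.mul (hj : Loi F α j) {x y : A} (hx : Dm (F := F) α j x) (hy : Dm (F := F) α j y) :
    Dm (F := F) α j (x * y) := by
  obtain ⟨a, ha, rfl⟩ := hx
  obtain ⟨b, hb, rfl⟩ := hy
  refine ⟨a * j * b, lsu_mul (lsu_mul ha hj.fx) hb, ?_⟩
  calc j * a * j * (j * b * j) = j * a * (j * j) * b * j := by simp only [mul_assoc]
    _ = j * (a * j * b) * j := by rw [hj.id]; simp only [mul_assoc]

theorem Dm.left (hj : Loi F α j) {x : A} (hx : Dm (F := F) α j x) : j * x = x := by
  obtain ⟨a, ha, rfl⟩ := hx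
  rw [← mul_assoc, ← mul_assoc, hj.id]

theorem Dm.right (hj : Loi F α j) {x : A} (hx : Dm (F := F) α j x) : x * j = x := by
  obtain ⟨a, ha, rfl⟩ := hx
  rw [mul_assoc, hj.id]

theorem Dm.mem (hj : Loi F α j) {x : A} (hx : Dm (F := F) α j x) : x ∈ FxR (cw F α) ⊤ := by
  obtain ⟨a, ha, rfl⟩ := hx
  exact lsu_mul (lsu_mul hj.fx ha) hj.fx

theorem Dm.alt (hj : Loi F α j) {x : A} (hx : Dm (F := F) α j x) :
    IsNilpotent x ∨ ∃ t, Dm (F := F) α j t ∧ x * t = j := by
  obtain ⟨a, ha, rfl⟩ := hx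
  rcases hj.loc a ha with h | ⟨y, hy, h1, -⟩
  · exact Or.inl h
  · exact Or.inr ⟨j * y * j, ⟨y, hy, rfl⟩, h1⟩

theorem lsu_ne (hj : Loi F α j) : j ≠ 0 := by
  rintro rfl
  exact hj.nz (Submodule.zero_mem _)

/-- a nilpotent element is not a unit -/
theorem Dm.nu (hj : Loi F α j) {x t : A} (hx : Dm (F := F) α j x) (ht : Dm (F := F) α j t)
    (hn : IsNilpotent x) (h : x * t = j) : False := by
  obtain ⟨m, hm⟩ := hn
  have key : ∀ k, x ^ k * j = 0 → j = 0 := by
    intro k
    induction k with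
    | zero =>
      intro h0
      rw [pow_zero, one_mul] at h0
      exact h0
    | succ k ih =>
      intro h0
      apply ih
      calc x ^ k * j = x ^ k * (x * t) := by rw [h]
        _ = x ^ (k + 1) * (j * t) := by rw [ht.left hj, pow_succ, mul_assoc]
        _ = 0 := by rw [← mul_assoc, h0, zero_mul]
  exact lsu_ne hj (key m (by rw [hm, zero_mul]))

/-- the sum of two nilpotent elements -/
theorem Dm.nadd (hj : Loi F α j) {x y : A} (hx : Dm (F := F) α j x) (hy : Dm (F := F) α j y)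
    (hnx : IsNilpotent x) (hny : IsNilpotent y) : IsNilpotent (x + y) := by
  rcases (hx.add hy).alt hj with h | ⟨t, ht, h⟩
  · exact h
  exfalso
  have h1 : ∀ z : A, Dm (F := F) α j z → IsNilpotent z → IsNilpotent (z * t) := by
    intro z hz hnz
    rcases (hz.mul hj ht).alt hj with h2 | ⟨s, hs, h2⟩
    · exact h2
    · rw [mul_assoc] at h2
      exact (hz.nu hj (ht.mul hj hs) hnz h2).elim
  have h2 := h1 x hx hnx
  have h3 := h1 y hy hny
  have h4 : x * t + y * t = j := by rw [← add_mul, h]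
  have h5 : Commute (x * t) (y * t) := by
    have h6 : y * t = j - x * t := by rw [← h4]; abel
    rw [h6]
    have h7 : Commute (x * t) j := by
      show x * t * j = j * (x * t)
      rw [(hx.mul hj ht).left hj, (hx.mul hj ht).right hj]
    exact h7.sub_right (Commute.refl _)
  have h8 : IsNilpotent j := by
    rw [← h4]
    exact h5.isNilpotent_add h2 h3
  obtain ⟨m, hm⟩ := h8
  have h9 : ∀ k, j ^ (k + 1) = j := by
    intro k
    induction k with
    | zero => rw [zero_add, pow_one]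
    | succ k ih => rw [pow_succ, ih, hj.id]
  apply lsu_ne hj
  rw [← h9 m, pow_succ, hm, zero_mul]

/-- LSU -/
theorem lsu (bki : S0.BkiStmt) : LsuStmt := by
  intro F V A ι _ _ _ _ _ α j x hj hx hK
  by_contra hcon
  push Not at hcon
  have h1 : ∀ s : Finset ι, Dm (F := F) α j (∑ i ∈ s, j * x i * j) ∧
      IsNilpotent (∑ i ∈ s, j * x i * j) := by
    classical
    intro s
    induction s using Finset.induction_on with
    | empty =>
      rw [Finset.sum_empty]
      exact ⟨⟨0, Submodule.zero_mem _, by rw [mul_zero, zero_mul]⟩, IsNilpotent.zero⟩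
    | insert a s ha ih =>
      rw [Finset.sum_insert ha]
      have h2 : Dm (F := F) α j (j * x a * j) := ⟨x a, hx a, rfl⟩
      exact ⟨h2.add ih.1, h2.nadd hj ih.1 (hcon a) ih.2⟩
  obtain ⟨h2, h3⟩ := h1 Finset.univ
  have hjD : Dm (F := F) α j j := ⟨j, hj.fx, by rw [hj.id, hj.id]⟩
  have h4 : Dm (F := F) α j (j - ∑ i, j * x i * j) := by
    obtain ⟨a, ha, h⟩ := h2
    refine ⟨j - a, Submodule.sub_mem _ hj.fx ha, ?_⟩
    rw [h, mul_sub, sub_mul, hj.id, hj.id]
  have h5 : IsNilpotent (j - ∑ i, j * x i * j) := by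
    rcases h4.alt hj with h | ⟨t, ht, h⟩
    · exact h
    · exfalso
      apply hj.nz
      rw [← h]
      exact (bki F V A α ⊤ t (ht.mem hj) _ hK).2
  have h6 : IsNilpotent (j - ∑ i, j * x i * j + ∑ i, j * x i * j) := h4.nadd hj h2 h5 h3
  rw [sub_add_cancel] at h6
  exact hjD.nu hj hjD h6 hj.id

end Pool.Agent.PSS.S5.H1
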